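import Mathlib

set_option autoImplicit false

/-!
# Simplicial complexes, reduced homology, Cohen-Macaulay complexes, barycentric subdivisions
-/

open Finset Polynomial

namespace Pool.Agent.R140.CMS

/-- A finite (abstract) simplicial complex with vertices in `ℕ`; the empty set is a face. -/
structure Cpx where
  faces : Finset (Finset ℕ)
  empty_mem : ∅ ∈ faces
  down : ∀ F ∈ faces, ∀ G ⊆ F, G ∈ faces

/-- The faces with `s` elements (of dimension `s - 1`). -/
def level (X : Finset (Finset ℕ)) (s : ℕ) : Finset (Finset ℕ) := X.filter fun G => G.card = s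

/-- The link of `σ`. -/
def link (X : Finset (Finset ℕ)) (σ : Finset ℕ) : Finset (Finset ℕ) :=
  X.filter fun G => Disjoint G σ ∧ G ∪ σ ∈ X

/-- `z` is a simplicial chain of dimension `s - 1` of `X` with coefficients in `k`: a function on
finite sets, zero outside of the faces with `s` elements. -/
def IsCh {k : Type*} [Field k] (X : Finset (Finset ℕ)) (s : ℕ) (z : Finset ℕ → k) : Prop :=
  ∀ G, z G ≠ 0 → G ∈ X ∧ G.card = s

/-- The boundary map (vertex set `V`): the coefficient at `G` of the boundary of `z` is the sum over
`v ∈ V \ G` of the coefficient of `z` at `G ∪ {v}` times `-1` to the number of elements of `G`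
smaller than `v`. The boundary of a vertex is the empty face (reduced homology). -/
def bd {k : Type*} [Field k] (V : Finset ℕ) (z : Finset ℕ → k) : Finset ℕ → k := fun G =>
  ∑ v ∈ V \ G, (-1) ^ (G.filter fun u => u < v).card * z (insert v G)

/-- The reduced homology of `X` over `k` vanishes in dimension `s - 1`: every cycle of this dimension is
a boundary. -/
def HVanish (k : Type*) [Field k] (X : Finset (Finset ℕ)) (s : ℕ) : Prop :=
  ∀ z : Finset ℕ → k, IsCh X s z → bd (X.sup id) z = 0 →
    ∃ y : Finset ℕ → k, IsCh X (s + 1) y ∧ bd (X.sup id) y = z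

/-- The largest number of elements of a face; `X` has dimension `size X - 1`. -/
def size (X : Finset (Finset ℕ)) : ℕ := X.sup card

/-- `X` is Cohen-Macaulay over `k` (Reisner's criterion): for every face `σ` the reduced homology of
the link of `σ` vanishes in the dimensions smaller than the dimension of the link. -/
def CM (k : Type*) [Field k] (X : Finset (Finset ℕ)) : Prop :=
  ∀ σ ∈ X, ∀ s < size (link X σ), HVanish k (link X σ) s

/-- A label for finite sets of natural numbers. -/
def code (F : Finset ℕ) : ℕ := ∑ i ∈ F, 2 ^ i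

/-- The barycentric subdivision: the chains of nonempty faces of `X`. The vertex of the subdivision which
corresponds to the nonempty face `F` is denoted by the number `code F`. -/
def sd (X : Finset (Finset ℕ)) : Finset (Finset ℕ) :=
  ((X.erase ∅).powerset.filter fun C => ∀ A ∈ C, ∀ B ∈ C, A ⊆ B ∨ B ⊆ A).image
    fun C => C.image code

/-- `X` is an `(n-1)`-dimensional Cohen-Macaulay* complex over `k`: `X` and each of the families obtained
from `X` by removing one facet are Cohen-Macaulay (their barycentric subdivisions are) of dimension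
`n - 1`. -/
def CMStar (k : Type*) [Field k] (n : ℕ) (X : Finset (Finset ℕ)) : Prop :=
  size X = n ∧ CM k (sd X) ∧
    ∀ F, Maximal (· ∈ X) F → size (X.erase F) = n ∧ CM k (sd (X.erase F))

/-- The polynomial `h(X, x) = ∑ f_{i-1} x^i (1 - x)^(n-i)` of an `(n-1)`-dimensional complex. -/
noncomputable def hPoly (n : ℕ) (X : Finset (Finset ℕ)) : ℝ[X] :=
  ∑ i ∈ range (n + 1), C ((level X i).card : ℝ) * (Polynomial.X ^ i * (1 - Polynomial.X) ^ (n - i))

/-- `p = a + x b` is the symmetric decomposition of `p` with respect to `n`. -/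
def IsSymDecomp (n : ℕ) (p a b : ℝ[X]) : Prop :=
  p = a + Polynomial.X * b ∧ a.natDegree ≤ n ∧ a.reflect n = a ∧
    b.natDegree ≤ n - 1 ∧ b.reflect (n - 1) = b

/-- The roots of a polynomial (with multiplicity) in decreasing order. -/
noncomputable def rootList (a : ℝ[X]) : List ℝ := a.roots.sort (· ≥ ·)

/-- `b` interlaces `a`: `⋯ ≤ β₂ ≤ α₂ ≤ β₁ ≤ α₁` for the roots `β₁ ≥ β₂ ≥ ⋯` of `b` and
`α₁ ≥ α₂ ≥ ⋯` of `a` (all inequalities between existing roots), or one of them is zero. -/
def Interlaces (b a : ℝ[X]) : Prop :=
  b = 0 ∨ a = 0 ∨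
    ((∀ (i : ℕ) (hb : i < (rootList b).length) (ha : i < (rootList a).length),
      (rootList b)[i] ≤ (rootList a)[i]) ∧
    (∀ (i : ℕ) (hb : i < (rootList b).length) (ha : i + 1 < (rootList a).length),
      (rootList a)[i + 1] ≤ (rootList b)[i]))

end Pool.Agent.R140.CMS
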