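import Pool.Agent.R140.CMS.Sd

set_option autoImplicit false

/-!
# The counterexample
-/

open Finset Polynomial

namespace Pool.Agent.R140.CMS

/-- the triangles of the counterexample -/
def fac : List (ℕ × ℕ × ℕ) :=
  [(0, 1, 2), (0, 2, 3), (0, 1, 3), (0, 1, 5), (0, 4, 5), (0, 1, 4), (1, 2, 4), (1, 3, 5),
    (2, 3, 5), (2, 4, 5)]

/-- the counterexample -/
def L : Cpx where
  faces := K fac
  empty_mem := mem_K.2 ⟨(0, 1, 2), by simp [fac], empty_subset _⟩
  down := by
    intro F hF G hG
    obtain ⟨t, ht, h⟩ := mem_K.1 hF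
    exact mem_K.2 ⟨t, ht, hG.trans h⟩

theorem sdL : sd L.faces = clos sh :=
  sd_K (by decide) (by decide +kernel) (by decide +kernel) (by decide +kernel)

/-- the shelling data of the complex without a triangle -/
def shd (t : ℕ × ℕ × ℕ) : List (ℕ × ℕ) :=
  if t = (0, 1, 2) then sh012 else if t = (0, 2, 3) then sh023 else
  if t = (0, 1, 3) then sh013 else if t = (0, 1, 5) then sh015 else
  if t = (0, 4, 5) then sh045 else if t = (0, 1, 4) then sh014 else
  if t = (1, 2, 4) then sh124 else if t = (1, 3, 5) then sh135 else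
  if t = (2, 3, 5) then sh235 else sh245

theorem del_all : ∀ t ∈ fac, (K fac).erase (tri t) = K (fac.erase t) := by
  decide +kernel

theorem size_all : ∀ t ∈ fac, size (K (fac.erase t)) = 3 := by
  decide +kernel

theorem chk_all : ∀ t ∈ fac, chk 3 (shd t) = true := by
  decide +kernel

theorem sd_all : ∀ t ∈ fac, fac.erase t ≠ [] ∧ (fac.erase t).all good = true ∧
    ((shd t).all fun p => (flags (fac.erase t)).contains p.1) = true ∧
    ((flags (fac.erase t)).all fun m => ((shd t).map Prod.fst).contains m) = true := by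
  decide +kernel

theorem max_L {F : Finset ℕ} (hF : Maximal (· ∈ L.faces) F) : ∃ t ∈ fac, F = tri t := by
  obtain ⟨t, ht, h⟩ := mem_K.1 hF.1
  refine ⟨t, ht, Subset.antisymm h ?_⟩
  exact hF.2 (mem_K.2 ⟨t, ht, Subset.refl _⟩) h

theorem cmStar (k : Type*) [Field k] : CMStar k 3 L.faces := by
  refine ⟨by decide +kernel, ?_, ?_⟩
  · rw [sdL]
    exact (chk_sh ck_sh).CM
  · intro F hF
    obtain ⟨t, ht, rfl⟩ := max_L hF
    have e : L.faces.erase (tri t) = K (fac.erase t) := del_all t ht
    rw [e]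
    obtain ⟨h1, h2, h3, h4⟩ := sd_all t ht
    refine ⟨size_all t ht, ?_⟩
    rw [sd_K h1 h2 h3 h4]
    exact (chk_sh (chk_all t ht)).CM

theorem level_card (s : ℕ) : (level (sd L.faces) s).card = cnt 3 s sh := by
  rw [sdL]
  exact card_level_clos ck_sh s

theorem lev0 : (level (sd L.faces) 0).card = 1 := by rw [level_card]; decide +kernel
theorem lev1 : (level (sd L.faces) 1).card = 30 := by rw [level_card]; decide +kernel
theorem lev2 : (level (sd L.faces) 2).card = 88 := by rw [level_card]; decide +kernel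
theorem lev3 : (level (sd L.faces) 3).card = 60 := by rw [level_card]; decide +kernel

theorem hPoly_L : hPoly 3 (sd L.faces) =
    1 + C 27 * Polynomial.X + C 31 * Polynomial.X ^ 2 + Polynomial.X ^ 3 := by
  rw [hPoly]
  simp only [sum_range_succ, sum_range_zero, lev0, lev1, lev2, lev3, zero_add, pow_zero, one_mul,
    Nat.sub_zero, Nat.sub_self, mul_one]
  have e1 : ((30 : ℕ) : ℝ) = 30 := by norm_num
  have e2 : ((88 : ℕ) : ℝ) = 88 := by norm_num
  have e3 : ((60 : ℕ) : ℝ) = 60 := by norm_num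
  rw [e1, e2, e3]
  have c1 : (C ((1 : ℕ) : ℝ) : ℝ[X]) = 1 := by simp
  rw [c1]
  have k1 : (C (30 : ℝ) : ℝ[X]) = 30 := by norm_num [map_ofNat]
  have k2 : (C (88 : ℝ) : ℝ[X]) = 88 := by norm_num [map_ofNat]
  have k3 : (C (60 : ℝ) : ℝ[X]) = 60 := by norm_num [map_ofNat]
  have k4 : (C (27 : ℝ) : ℝ[X]) = 27 := by norm_num [map_ofNat]
  have k5 : (C (31 : ℝ) : ℝ[X]) = 31 := by norm_num [map_ofNat]
  rw [k1, k2, k3, k4, k5]
  ring

/-- the symmetric part -/
noncomputable def pa : ℝ[X] :=
  1 + C 27 * Polynomial.X + C 27 * Polynomial.X ^ 2 + Polynomial.X ^ 3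

/-- the other part -/
noncomputable def pb : ℝ[X] := C 4 * Polynomial.X

theorem unique_dec {a b : ℝ[X]} (h : IsSymDecomp 3 (hPoly 3 (sd L.faces)) a b) :
    a = pa ∧ b = pb := by
  obtain ⟨h1, h2, h3, h4, h5⟩ := h
  rw [hPoly_L] at h1
  have ca : ∀ i, i ≤ 3 → a.coeff (3 - i) = a.coeff i := by
    intro i hi
    conv_rhs => rw [← h3]
    rw [coeff_reflect, revAt_le hi]
  have cb : ∀ i, i ≤ 2 → b.coeff (2 - i) = b.coeff i := by
    intro i hi
    conv_rhs => rw [← h5]
    rw [coeff_reflect, revAt_le hi]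
  have a0 := ca 0 (by norm_num)
  have a1 := ca 1 (by norm_num)
  have b0 := cb 0 (by norm_num)
  norm_num at a0 a1 b0
  have ha4 : ∀ i, 4 ≤ i → a.coeff i = 0 := fun i hi =>
    coeff_eq_zero_of_natDegree_lt (by omega)
  have hb3 : ∀ i, 3 ≤ i → b.coeff i = 0 := fun i hi =>
    coeff_eq_zero_of_natDegree_lt (by omega)
  have q0 := congrArg (fun p => coeff p 0) h1
  have q1 := congrArg (fun p => coeff p 1) h1
  have q2 := congrArg (fun p => coeff p 2) h1
  have q3 := congrArg (fun p => coeff p 3) h1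
  simp only [coeff_add, coeff_C_mul, coeff_X_pow, coeff_X, coeff_one, mul_coeff_zero,
    coeff_X_mul] at q0 q1 q2 q3
  norm_num at q0 q1 q2 q3
  have b00 : b.coeff 0 = 0 := by linarith
  have a27 : a.coeff 1 = 27 := by linarith
  have b4 : b.coeff 1 = 4 := by linarith
  constructor
  · ext i
    rcases Nat.lt_or_ge i 4 with hi | hi
    · interval_cases i <;>
        simp only [pa, coeff_add, coeff_C_mul, coeff_X_pow, coeff_X, coeff_one] <;> norm_num <;>
        linarith
    · rw [ha4 i hi, pa]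
      simp only [coeff_add, coeff_C_mul, coeff_X_pow, coeff_X, coeff_one]
      rw [if_neg (by omega), if_neg (by omega), if_neg (by omega), if_neg (by omega)]
      norm_num
  · ext i
    rcases Nat.lt_or_ge i 3 with hi | hi
    · interval_cases i <;>
        simp only [pb, coeff_C_mul, coeff_X] <;> norm_num <;>
        linarith
    · rw [hb3 i hi, pb]
      simp only [coeff_C_mul, coeff_X]
      rw [if_neg (by omega)]
      norm_num

end Pool.Agent.R140.CMS
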