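import Pool.Agent.R140.CMS.Shell

set_option autoImplicit false

/-!
# Bit masks and a checker for shellings
-/

open Finset

namespace Pool.Agent.R140.CMS

/-- the set with a given bit mask -/
def dm (m : ℕ) : Finset ℕ := (range 64).filter fun i => m.testBit i = true

/-- the list of bits -/
def bl (m : ℕ) : List ℕ := (List.range 64).filter fun i => m.testBit i

/-- containment of masks -/
def sub (a b : ℕ) : Bool := Nat.beq (Nat.land a b) a

lemma mem_dm {m n : ℕ} : n ∈ dm m ↔ n < 64 ∧ m.testBit n = true := by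
  rw [dm, mem_filter, mem_range]

lemma mem_bl {m n : ℕ} : n ∈ bl m ↔ n ∈ dm m := by
  rw [bl, List.mem_filter, List.mem_range, mem_dm]

lemma nodup_bl (m : ℕ) : (bl m).Nodup := (List.nodup_range).filter _

lemma card_dm (m : ℕ) : (dm m).card = (bl m).length := by
  have e : dm m = (bl m).toFinset := by
    ext n
    rw [List.mem_toFinset, mem_bl]
  rw [e, List.toFinset_card_of_nodup (nodup_bl m)]

lemma testBit_big {m i : ℕ} (h : m < 2 ^ 64) (hi : 64 ≤ i) : m.testBit i = false :=
  Nat.testBit_eq_false_of_lt (h.trans_le (Nat.pow_le_pow_right (by norm_num) hi))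

lemma sub_iff {a b : ℕ} (ha : a < 2 ^ 64) : sub a b = true ↔ dm a ⊆ dm b := by
  unfold sub
  rw [Nat.beq_eq]
  constructor
  · intro h n hn
    rw [mem_dm] at hn ⊢
    refine ⟨hn.1, ?_⟩
    have h1 := congrArg (fun k => Nat.testBit k n) h
    have h2 : (a &&& b).testBit n = a.testBit n := h1
    simp only [Nat.testBit_land, hn.2, Bool.and_eq_true] at h2
    exact h2.2
  · intro h
    change a &&& b = a
    apply Nat.eq_of_testBit_eq
    intro i
    rw [Nat.testBit_land]
    rcases Nat.lt_or_ge i 64 with hi | hi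
    · cases h1 : a.testBit i with
      | false => simp
      | true =>
        have h2 := h (mem_dm.2 ⟨hi, h1⟩)
        rw [mem_dm] at h2
        simp [h2.2]
    · simp [testBit_big ha hi]

lemma dm_lor_two_pow {s b : ℕ} (hb : b < 64) : dm (s ||| 2 ^ b) = insert b (dm s) := by
  ext n
  rw [mem_insert, mem_dm, mem_dm, Nat.testBit_lor, Nat.testBit_two_pow]
  by_cases h1 : n = b
  · subst h1
    simp [hb]
  · simp [h1, Ne.symm h1]

lemma dm_zero : dm 0 = ∅ := by
  ext n
  rw [mem_dm]
  simp

/-- the masks of the subsets of a set given by the list of its elements -/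
def sms : List ℕ → List ℕ
  | [] => [0]
  | b :: bs => sms bs ++ (sms bs).map fun s => s ||| 2 ^ b

lemma mem_sms (bs : List ℕ) (hb : ∀ b ∈ bs, b < 64) : ∀ G : Finset ℕ, (∀ x ∈ G, x ∈ bs) →
    ∃ s ∈ sms bs, dm s = G := by
  induction bs with
  | nil =>
    intro G hG
    refine ⟨0, by simp [sms], ?_⟩
    rw [dm_zero]
    symm
    rw [Finset.eq_empty_iff_forall_notMem]
    intro x hx
    have := hG x hx
    simp at this
  | cons b bs ih =>
    intro G hG
    obtain ⟨s, hs, h1⟩ := ih (fun x hx => hb x (List.mem_cons_of_mem _ hx)) (G.erase b) (by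
      intro x hx
      rw [mem_erase] at hx
      rcases List.mem_cons.1 (hG x hx.2) with h | h
      · exact absurd h hx.1
      · exact h)
    by_cases hbG : b ∈ G
    · refine ⟨s ||| 2 ^ b, ?_, ?_⟩
      · rw [sms, List.mem_append, List.mem_map]
        exact Or.inr ⟨s, hs, rfl⟩
      · rw [dm_lor_two_pow (hb b List.mem_cons_self), h1, insert_erase hbG]
    · refine ⟨s, ?_, ?_⟩
      · rw [sms, List.mem_append]
        exact Or.inl hs
      · rw [h1, erase_eq_of_notMem hbG]

lemma sms_lt (bs : List ℕ) (hb : ∀ b ∈ bs, b < 64) : ∀ s ∈ sms bs, s < 2 ^ 64 := by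
  induction bs with
  | nil =>
    intro s hs
    simp [sms] at hs
    subst hs
    norm_num
  | cons b bs ih =>
    have ih' := ih (fun x hx => hb x (List.mem_cons_of_mem _ hx))
    intro s hs
    rw [sms, List.mem_append, List.mem_map] at hs
    rcases hs with h | ⟨t, ht, rfl⟩
    · exact ih' s h
    · exact Nat.or_lt_two_pow (ih' t ht)
        (Nat.pow_lt_pow_right (by norm_num) (hb b List.mem_cons_self))

lemma exists_mask {m : ℕ} {G : Finset ℕ} (hG : G ⊆ dm m) :
    ∃ s ∈ sms (bl m), dm s = G ∧ s < 2 ^ 64 := by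
  have hb : ∀ b ∈ bl m, b < 64 := fun b hb => (mem_dm.1 (mem_bl.1 hb)).1
  obtain ⟨s, hs, h⟩ := mem_sms (bl m) hb G (fun x hx => mem_bl.2 (hG hx))
  exact ⟨s, hs, h, sms_lt _ hb s hs⟩

/-- the family generated by the first components -/
def clos : List (ℕ × ℕ) → Finset (Finset ℕ)
  | [] => ∅
  | p :: t => clos t ∪ (dm p.1).powerset

lemma mem_clos {l : List (ℕ × ℕ)} {G : Finset ℕ} : G ∈ clos l ↔ ∃ p ∈ l, G ⊆ dm p.1 := by
  induction l with
  | nil => simp [clos]
  | cons p t ih =>
    rw [clos, mem_union, ih, mem_powerset]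
    constructor
    · rintro (⟨q, hq, h⟩ | h)
      · exact ⟨q, List.mem_cons_of_mem _ hq, h⟩
      · exact ⟨p, List.mem_cons_self, h⟩
    · rintro ⟨q, hq, h⟩
      rcases List.mem_cons.1 hq with rfl | hq
      · exact Or.inr h
      · exact Or.inl ⟨q, hq, h⟩

/-- the shelling test (facets with `d` elements; the last facet comes first in the list) -/
def chk (d : ℕ) : List (ℕ × ℕ) → Bool
  | [] => true
  | p :: t => (Nat.beq (bl p.1).length d && (sub p.2 p.1 && (Nat.blt p.2 (2 ^ 64) &&
      (sms (bl p.1)).all fun g => (t.any fun q => sub g q.1) == !(sub p.2 g)))) && chk d t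

lemma chk_cons {d : ℕ} {p : ℕ × ℕ} {t : List (ℕ × ℕ)} (h : chk d (p :: t) = true) :
    chk d t = true ∧ (dm p.1).card = d ∧ dm p.2 ⊆ dm p.1 ∧
      ∀ G ⊆ dm p.1, G ∈ clos t ↔ ¬ dm p.2 ⊆ G := by
  rw [chk, Bool.and_eq_true, Bool.and_eq_true, Bool.and_eq_true, Bool.and_eq_true, Nat.beq_eq,
    Nat.blt_eq, List.all_eq_true] at h
  obtain ⟨⟨h1, h2, h3, h4⟩, h5⟩ := h
  refine ⟨h5, by rw [card_dm]; exact h1, (sub_iff h3).1 h2, ?_⟩
  intro G hG
  obtain ⟨g, hg, rfl, hg2⟩ := exists_mask hG
  have h6 := h4 g hg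
  rw [beq_iff_eq] at h6
  rw [mem_clos, ← sub_iff h3]
  have h7 : (t.any fun q => sub g q.1) = true ↔ ∃ q ∈ t, dm g ⊆ dm q.1 := by
    rw [List.any_eq_true]
    constructor
    · rintro ⟨q, hq, h⟩
      exact ⟨q, hq, (sub_iff hg2).1 h⟩
    · rintro ⟨q, hq, h⟩
      exact ⟨q, hq, (sub_iff hg2).2 h⟩
  rw [← h7, h6]
  cases sub p.2 g <;> simp

theorem chk_sh {d : ℕ} {l : List (ℕ × ℕ)} (h : chk d l = true) : Sh d (clos l) := by
  induction l with
  | nil => exact Sh.nil
  | cons p t ih =>
    obtain ⟨h1, h2, h3, h4⟩ := chk_cons h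
    exact Sh.cons _ _ _ (ih h1) h2 h3 h4

/-- the number of faces with `s` elements, from the restriction sets -/
def cnt (d s : ℕ) : List (ℕ × ℕ) → ℕ
  | [] => 0
  | p :: t => cnt d s t +
      (if (bl p.2).length ≤ s then (d - (bl p.2).length).choose (s - (bl p.2).length) else 0)

theorem card_level_clos {d : ℕ} {l : List (ℕ × ℕ)} (h : chk d l = true) (s : ℕ) :
    (level (clos l) s).card = cnt d s l := by
  induction l with
  | nil => simp [level, clos, cnt]
  | cons p t ih =>
    obtain ⟨h1, h2, h3, h4⟩ := chk_cons h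
    rw [cnt, ← ih h1, ← card_dm]
    have e : level (clos (p :: t)) s =
        level (clos t) s ∪ ((dm p.1).powersetCard s).filter fun G => dm p.2 ⊆ G := by
      ext G
      simp only [level, clos, mem_filter, mem_union, mem_powerset, mem_powersetCard]
      constructor
      · rintro ⟨h5 | h5, h6⟩
        · exact Or.inl ⟨h5, h6⟩
        · by_cases h7 : dm p.2 ⊆ G
          · exact Or.inr ⟨⟨h5, h6⟩, h7⟩
          · exact Or.inl ⟨(h4 G h5).2 h7, h6⟩
      · rintro (⟨h5, h6⟩ | ⟨⟨h5, h6⟩, h7⟩)
        · exact ⟨Or.inl h5, h6⟩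
        · exact ⟨Or.inr h5, h6⟩
    have hd : Disjoint (level (clos t) s) (((dm p.1).powersetCard s).filter fun G => dm p.2 ⊆ G) := by
      rw [Finset.disjoint_left]
      intro G hG hG2
      simp only [level, mem_filter, mem_powersetCard] at hG hG2
      exact (h4 G hG2.1.1).1 hG.1 hG2.2
    rw [e, card_union_of_disjoint hd]
    congr 1
    split_ifs with hs
    · -- supersets
      have e2 : ((dm p.1).powersetCard s).filter (fun G => dm p.2 ⊆ G) =
          (((dm p.1) \ (dm p.2)).powersetCard (s - (dm p.2).card)).image (fun G => G ∪ dm p.2) := by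
        ext G
        simp only [mem_filter, mem_powersetCard, mem_image]
        constructor
        · rintro ⟨⟨h5, h6⟩, h7⟩
          refine ⟨G \ dm p.2, ⟨sdiff_subset_sdiff h5 (Subset.refl _), ?_⟩,
            sdiff_union_of_subset h7⟩
          rw [card_sdiff_of_subset h7, h6]
        · rintro ⟨H, ⟨h5, h6⟩, rfl⟩
          refine ⟨⟨union_subset (h5.trans sdiff_subset) h3, ?_⟩, subset_union_right⟩
          rw [card_union_of_disjoint, h6]
          · omega
          · rw [Finset.disjoint_left]
            intro x hx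
            exact (mem_sdiff.1 (h5 hx)).2
      rw [e2, card_image_of_injOn, card_powersetCard, card_sdiff_of_subset h3, h2]
      intro G hG H hH hGH
      rw [Finset.mem_coe, Finset.mem_powersetCard] at hG hH
      have hG1 : G = (G ∪ dm p.2) \ dm p.2 := by
        rw [union_sdiff_right, sdiff_eq_self_of_disjoint]
        rw [Finset.disjoint_left]
        intro x hx
        exact (mem_sdiff.1 (hG.1 hx)).2
      have hH1 : H = (H ∪ dm p.2) \ dm p.2 := by
        rw [union_sdiff_right, sdiff_eq_self_of_disjoint]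
        rw [Finset.disjoint_left]
        intro x hx
        exact (mem_sdiff.1 (hH.1 hx)).2
      rw [hG1, hH1]
      simp only at hGH
      rw [hGH]
    · rw [card_eq_zero, Finset.eq_empty_iff_forall_notMem]
      intro G hG
      rw [mem_filter, mem_powersetCard] at hG
      have := card_le_card hG.2
      omega

end Pool.Agent.R140.CMS
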