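import Pool.Agent.R140.CMS.Data

set_option autoImplicit false

/-!
# The barycentric subdivision of a two-dimensional complex
-/

open Finset

namespace Pool.Agent.R140.CMS

/-- the three vertices of a triangle -/
def tri (t : ℕ × ℕ × ℕ) : Finset ℕ := {t.1, t.2.1, t.2.2}

/-- the complex with given triangles -/
def K : List (ℕ × ℕ × ℕ) → Finset (Finset ℕ)
  | [] => ∅
  | t :: ts => (tri t).powerset ∪ K ts

lemma mem_K {l : List (ℕ × ℕ × ℕ)} {G : Finset ℕ} : G ∈ K l ↔ ∃ t ∈ l, G ⊆ tri t := by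
  induction l with
  | nil => simp [K]
  | cons p t ih =>
    rw [K, mem_union, ih, mem_powerset]
    constructor
    · rintro (h | ⟨q, hq, h⟩)
      · exact ⟨p, List.mem_cons_self, h⟩
      · exact ⟨q, List.mem_cons_of_mem _ hq, h⟩
    · rintro ⟨q, hq, h⟩
      rcases List.mem_cons.1 hq with rfl | hq
      · exact Or.inl h
      · exact Or.inr ⟨q, hq, h⟩

/-- the orderings of a triple -/
def perm6 (t : ℕ × ℕ × ℕ) : List (ℕ × ℕ × ℕ) :=
  [(t.1, t.2.1, t.2.2), (t.1, t.2.2, t.2.1), (t.2.1, t.1, t.2.2), (t.2.1, t.2.2, t.1),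
    (t.2.2, t.1, t.2.1), (t.2.2, t.2.1, t.1)]

/-- the mask of the flag of an ordered triple -/
def flag (t : ℕ × ℕ × ℕ) : ℕ :=
  ((0 ||| 2 ^ (2 ^ t.1)) ||| 2 ^ (2 ^ t.1 + 2 ^ t.2.1)) ||| 2 ^ (2 ^ t.1 + 2 ^ t.2.1 + 2 ^ t.2.2)

/-- the masks of all the flags -/
def flags (l : List (ℕ × ℕ × ℕ)) : List ℕ := l.flatMap fun t => (perm6 t).map flag

/-- sane triples -/
def good (t : ℕ × ℕ × ℕ) : Bool :=
  Nat.blt t.1 6 && Nat.blt t.2.1 6 && Nat.blt t.2.2 6 && (t.1 != t.2.1) && (t.1 != t.2.2) &&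
    (t.2.1 != t.2.2)

lemma good_iff {t : ℕ × ℕ × ℕ} : good t = true ↔
    t.1 < 6 ∧ t.2.1 < 6 ∧ t.2.2 < 6 ∧ t.1 ≠ t.2.1 ∧ t.1 ≠ t.2.2 ∧ t.2.1 ≠ t.2.2 := by
  simp only [good, Bool.and_eq_true, Nat.blt_eq, bne_iff_ne, ne_eq]
  tauto

lemma code1 (x : ℕ) : code {x} = 2 ^ x := by simp [code]

lemma code2 {x y : ℕ} (h : x ≠ y) : code {x, y} = 2 ^ x + 2 ^ y := by
  rw [code, sum_pair h]

lemma code3 {x y z : ℕ} (h : x ≠ y) (h2 : x ≠ z) (h3 : y ≠ z) :
    code {x, y, z} = 2 ^ x + 2 ^ y + 2 ^ z := by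
  rw [code, sum_insert, sum_pair h3, add_assoc]
  simp [h, h2]

lemma bound3 {x y z : ℕ} (hx : x < 6) (hy : y < 6) (hz : z < 6) (h : x ≠ y) (h2 : x ≠ z)
    (h3 : y ≠ z) : 2 ^ x < 64 ∧ 2 ^ x + 2 ^ y < 64 ∧ 2 ^ x + 2 ^ y + 2 ^ z < 64 := by
  have := (by decide : ∀ x ∈ range 6, ∀ y ∈ range 6, ∀ z ∈ range 6, (x ≠ y ∧ x ≠ z ∧ y ≠ z) →
    (2 ^ x < 64 ∧ 2 ^ x + 2 ^ y < 64 ∧ 2 ^ x + 2 ^ y + 2 ^ z < 64))
  exact this x (mem_range.2 hx) y (mem_range.2 hy) z (mem_range.2 hz) ⟨h, h2, h3⟩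

lemma dm_flag {t : ℕ × ℕ × ℕ} (h : good t = true) :
    dm (flag t) = {code {t.1}, code {t.1, t.2.1}, code {t.1, t.2.1, t.2.2}} := by
  rw [good_iff] at h
  obtain ⟨h1, h2, h3, h4, h5, h6⟩ := h
  obtain ⟨b1, b2, b3⟩ := bound3 h1 h2 h3 h4 h5 h6
  rw [flag, dm_lor_two_pow b3, dm_lor_two_pow b2, dm_lor_two_pow b1, dm_zero, code1, code2 h4,
    code3 h4 h5 h6]
  ext n
  simp only [mem_insert, mem_singleton, notMem_empty, or_false]
  tauto

lemma good_perm {t s : ℕ × ℕ × ℕ} (h : good t = true) (hs : s ∈ perm6 t) : good s = true := by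
  rw [good_iff] at h ⊢
  obtain ⟨h1, h2, h3, h4, h5, h6⟩ := h
  simp only [perm6, List.mem_cons, List.not_mem_nil, or_false] at hs
  rcases hs with rfl | rfl | rfl | rfl | rfl | rfl
  · exact ⟨h1, h2, h3, h4, h5, h6⟩
  · exact ⟨h1, h3, h2, h5, h4, h6.symm⟩
  · exact ⟨h2, h1, h3, h4.symm, h6, h5⟩
  · exact ⟨h2, h3, h1, h6, h4.symm, h5.symm⟩
  · exact ⟨h3, h1, h2, h5.symm, h6.symm, h4⟩
  · exact ⟨h3, h2, h1, h6.symm, h5.symm, h4.symm⟩

lemma tri_perm {t s : ℕ × ℕ × ℕ} (hs : s ∈ perm6 t) : tri s = tri t := by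
  simp only [perm6, List.mem_cons, List.not_mem_nil, or_false] at hs
  rcases hs with rfl | rfl | rfl | rfl | rfl | rfl <;>
    first
    | rfl
    | (ext n
       simp only [tri, mem_insert, mem_singleton]
       tauto)

lemma mem_flags {l : List (ℕ × ℕ × ℕ)} {m : ℕ} :
    m ∈ flags l ↔ ∃ t ∈ l, ∃ s ∈ perm6 t, flag s = m := by
  rw [flags, List.mem_flatMap]
  constructor
  · rintro ⟨t, ht, h⟩
    obtain ⟨s, hs, h2⟩ := List.mem_map.1 h
    exact ⟨t, ht, s, hs, h2⟩
  · rintro ⟨t, ht, s, hs, h⟩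
    exact ⟨t, ht, List.mem_map.2 ⟨s, hs, h⟩⟩

lemma code_inj {A B : Finset ℕ} (h : code A = code B) : A = B := by
  have := Finset.geomSum_injective (n := 2) le_rfl (a₁ := A) (a₂ := B)
  exact this h

/-- a chain in a triangle lies in a flag -/
lemma chain_flag {x y z : ℕ} {C : Finset (Finset ℕ)}
    (hC : ∀ A ∈ C, A ≠ ∅ ∧ A ⊆ {x, y, z})
    (hch : ∀ A ∈ C, ∀ B ∈ C, A ⊆ B ∨ B ⊆ A) :
    ∃ s ∈ perm6 (x, y, z), ∀ A ∈ C, A = {s.1} ∨ A = {s.1, s.2.1} ∨ A = {s.1, s.2.1, s.2.2} := by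
  let n : ℕ → ℕ := fun v => (C.filter fun A => v ∈ A).card
  have key : ∀ A ∈ C, ∀ v ∈ A, ∀ w, n v ≤ n w → w ∈ A := by
    intro A hA v hv w hn
    by_contra hw
    have hsub : (C.filter fun A => w ∈ A) ⊂ (C.filter fun A => v ∈ A) := by
      rw [Finset.ssubset_iff_of_subset]
      · exact ⟨A, mem_filter.2 ⟨hA, hv⟩, fun h => hw (mem_filter.1 h).2⟩
      · intro B hB
        rw [mem_filter] at hB ⊢
        refine ⟨hB.1, ?_⟩
        rcases hch A hA B hB.1 with h | h
        · exact h hv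
        · exact absurd (h hB.2) hw
    exact absurd (card_lt_card hsub) (not_lt.2 hn)
  have fin : ∀ a b c : ℕ, (∀ A ∈ C, A ⊆ {a, b, c}) → n b ≤ n a → n c ≤ n b → ∀ A ∈ C,
      A = {a} ∨ A = {a, b} ∨ A = {a, b, c} := by
    intro a b c hs h1 h2 A hA
    have h3 := hs A hA
    by_cases hc : c ∈ A
    · have hb := key A hA c hc b h2
      have ha := key A hA b hb a h1
      right; right
      apply Subset.antisymm h3
      intro v hv
      simp only [mem_insert, mem_singleton] at hv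
      rcases hv with rfl | rfl | rfl <;> assumption
    · by_cases hb : b ∈ A
      · have ha := key A hA b hb a h1
        right; left
        apply Subset.antisymm
        · intro v hv
          have := h3 hv
          simp only [mem_insert, mem_singleton] at this ⊢
          rcases this with h | h | h
          · exact Or.inl h
          · exact Or.inr h
          · exact absurd (h ▸ hv) hc
        · intro v hv
          simp only [mem_insert, mem_singleton] at hv
          rcases hv with rfl | rfl <;> assumption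
      · left
        apply Subset.antisymm
        · intro v hv
          have := h3 hv
          simp only [mem_insert, mem_singleton] at this ⊢
          rcases this with h | h | h
          · exact h
          · exact absurd (h ▸ hv) hb
          · exact absurd (h ▸ hv) hc
        · obtain ⟨v, hv⟩ := Finset.nonempty_iff_ne_empty.2 (hC A hA).1
          have := h3 hv
          simp only [mem_insert, mem_singleton] at this
          rcases this with h | h | h
          · rw [singleton_subset_iff]; exact h ▸ hv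
          · exact absurd (h ▸ hv) hb
          · exact absurd (h ▸ hv) hc
  have hp : ∀ s ∈ perm6 (x, y, z), ∀ A ∈ C, A ⊆ ({s.1, s.2.1, s.2.2} : Finset ℕ) := by
    intro s hs A hA
    have := tri_perm hs
    simp only [tri] at this
    rw [this]
    exact (hC A hA).2
  have mk : ∀ s ∈ perm6 (x, y, z), n s.2.1 ≤ n s.1 → n s.2.2 ≤ n s.2.1 →
      ∃ s ∈ perm6 (x, y, z), ∀ A ∈ C,
        A = {s.1} ∨ A = {s.1, s.2.1} ∨ A = {s.1, s.2.1, s.2.2} :=
    fun s hs h1 h2 => ⟨s, hs, fin _ _ _ (hp s hs) h1 h2⟩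
  rcases le_total (n x) (n y) with h1 | h1 <;> rcases le_total (n x) (n z) with h2 | h2 <;>
    rcases le_total (n y) (n z) with h3 | h3
  · exact mk (z, y, x) (by simp [perm6]) h3 h1
  · exact mk (y, z, x) (by simp [perm6]) h3 h2
  · exact mk (y, x, z) (by simp [perm6]) h1 h2
  · exact mk (y, x, z) (by simp [perm6]) h1 h2
  · exact mk (z, x, y) (by simp [perm6]) h2 h1
  · exact mk (z, x, y) (by simp [perm6]) h2 h1
  · exact mk (x, z, y) (by simp [perm6]) h2 h3
  · exact mk (x, y, z) (by simp [perm6]) h1 h3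

theorem sd_K {fl : List (ℕ × ℕ × ℕ)} {l : List (ℕ × ℕ)} (hne : fl ≠ [])
    (hg : fl.all good = true)
    (h1 : (l.all fun p => (flags fl).contains p.1) = true)
    (h2 : ((flags fl).all fun m => (l.map Prod.fst).contains m) = true) :
    sd (K fl) = clos l := by
  rw [List.all_eq_true] at hg h1 h2
  ext G
  rw [mem_clos, sd, mem_image]
  constructor
  · rintro ⟨C, hC, rfl⟩
    rw [mem_filter, mem_powerset] at hC
    obtain ⟨hC1, hC2⟩ := hC
    obtain ⟨t, ht, hsub⟩ : ∃ t ∈ fl, ∀ A ∈ C, A ⊆ tri t := by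
      rcases C.eq_empty_or_nonempty with rfl | hne2
      · obtain ⟨t, ht⟩ := List.exists_mem_of_ne_nil _ hne
        exact ⟨t, ht, by simp⟩
      · obtain ⟨M, hM, hmax⟩ := Finset.exists_max_image C card hne2
        have hMK := (mem_erase.1 (hC1 hM)).2
        obtain ⟨t, ht, hMt⟩ := mem_K.1 hMK
        refine ⟨t, ht, fun A hA => ?_⟩
        rcases hC2 A hA M hM with h | h
        · exact h.trans hMt
        · rw [← Finset.eq_of_subset_of_card_le h (hmax A hA)]
          exact hMt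
    obtain ⟨x, y, z⟩ := t
    obtain ⟨s, hs, hfl⟩ := chain_flag (x := x) (y := y) (z := z) (C := C)
      (fun A hA => ⟨(mem_erase.1 (hC1 hA)).1, hsub A hA⟩) hC2
    have hm : flag s ∈ flags fl := mem_flags.2 ⟨_, ht, s, hs, rfl⟩
    have h3 := h2 _ hm
    rw [List.contains_iff_mem, List.mem_map] at h3
    obtain ⟨p, hp, hp2⟩ := h3
    refine ⟨p, hp, ?_⟩
    rw [hp2, dm_flag (good_perm (hg _ ht) hs)]
    intro c hc
    obtain ⟨A, hA, rfl⟩ := mem_image.1 hc
    simp only [mem_insert, mem_singleton]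
    rcases hfl A hA with h | h | h
    · exact Or.inl (by rw [h])
    · exact Or.inr (Or.inl (by rw [h]))
    · exact Or.inr (Or.inr (by rw [h]))
  · rintro ⟨p, hp, hG⟩
    have h3 := h1 p hp
    rw [List.contains_iff_mem, mem_flags] at h3
    obtain ⟨t, ht, s, hs, he⟩ := h3
    have hgs := good_perm (hg _ ht) hs
    rw [← he, dm_flag hgs] at hG
    have hts := tri_perm hs
    let C : Finset (Finset ℕ) :=
      ({{s.1}, {s.1, s.2.1}, {s.1, s.2.1, s.2.2}} : Finset (Finset ℕ)).filter fun A => code A ∈ G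
    have hCm : ∀ A ∈ C, A = {s.1} ∨ A = {s.1, s.2.1} ∨ A = {s.1, s.2.1, s.2.2} := by
      intro A hA
      have := (mem_filter.1 hA).1
      simpa only [mem_insert, mem_singleton] using this
    have hs1 : ({s.1} : Finset ℕ) ⊆ {s.1, s.2.1} := by
      intro v hv
      simp only [mem_insert, mem_singleton] at hv ⊢
      exact Or.inl hv
    have hs2 : ({s.1, s.2.1} : Finset ℕ) ⊆ {s.1, s.2.1, s.2.2} := by
      intro v hv
      simp only [mem_insert, mem_singleton] at hv ⊢
      tauto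
    refine ⟨C, ?_, ?_⟩
    · rw [mem_filter, mem_powerset]
      refine ⟨?_, ?_⟩
      · intro A hA
        rw [mem_erase, mem_K]
        have hsub : A ⊆ tri s := by
          rcases hCm A hA with rfl | rfl | rfl
          · exact hs1.trans hs2
          · exact hs2
          · exact Subset.refl _
        refine ⟨?_, t, ht, hts ▸ hsub⟩
        rcases hCm A hA with rfl | rfl | rfl
        · exact Finset.singleton_ne_empty _
        · exact Finset.insert_ne_empty _ _
        · exact Finset.insert_ne_empty _ _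
      · intro A hA B hB
        rcases hCm A hA with rfl | rfl | rfl <;> rcases hCm B hB with rfl | rfl | rfl
        · exact Or.inl (Subset.refl _)
        · exact Or.inl hs1
        · exact Or.inl (hs1.trans hs2)
        · exact Or.inr hs1
        · exact Or.inl (Subset.refl _)
        · exact Or.inl hs2
        · exact Or.inr (hs1.trans hs2)
        · exact Or.inr hs2
        · exact Or.inl (Subset.refl _)
    · ext c
      rw [mem_image]
      constructor
      · rintro ⟨A, hA, rfl⟩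
        exact (mem_filter.1 hA).2
      · intro hc
        have h4 := hG hc
        simp only [mem_insert, mem_singleton] at h4
        rcases h4 with h | h | h
        · exact ⟨{s.1}, mem_filter.2 ⟨by simp, h ▸ hc⟩, h.symm⟩
        · exact ⟨{s.1, s.2.1}, mem_filter.2 ⟨by simp, h ▸ hc⟩, h.symm⟩
        · exact ⟨{s.1, s.2.1, s.2.2}, mem_filter.2 ⟨by simp, h ▸ hc⟩, h.symm⟩

end Pool.Agent.R140.CMS
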