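import Pool.Agent.R140.CMS.Defs

set_option autoImplicit false

/-!
# Shellable complexes are Cohen-Macaulay
-/

open Finset

namespace Pool.Agent.R140.CMS

variable {k : Type*} [Field k]

/-! ### The boundary of a boundary -/

theorem card_filter_insert {G : Finset ℕ} {v w : ℕ} (hv : v ∉ G) :
    ((insert v G).filter fun u => u < w).card =
      (G.filter fun u => u < w).card + (if v < w then 1 else 0) := by
  rw [Finset.filter_insert]
  by_cases h : v < w
  · rw [if_pos h, if_pos h, card_insert_of_notMem]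
    rw [mem_filter]
    exact fun hh => hv hh.1
  · rw [if_neg h, if_neg h, add_zero]

theorem bd_bd (V : Finset ℕ) (z : Finset ℕ → k) : bd V (bd V z) = 0 := by
  funext G
  simp only [bd, Pi.zero_apply, Finset.mul_sum]
  rw [Finset.sum_sigma']
  refine Finset.sum_involution (fun p _ => ⟨p.2, p.1⟩) ?_ ?_ ?_ ?_
  · rintro ⟨v, w⟩ h
    simp only [mem_sigma, mem_sdiff, mem_insert, not_or] at h
    obtain ⟨⟨hv, hvG⟩, hw, hwv, hwG⟩ := h
    simp only
    rw [card_filter_insert hvG, card_filter_insert hwG, Finset.insert_comm w v]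
    rcases lt_or_gt_of_ne hwv with hlt | hlt
    · rw [if_neg (not_lt.2 hlt.le), if_pos hlt, add_zero, pow_add, pow_one]
      ring
    · rw [if_pos hlt, if_neg (not_lt.2 hlt.le), add_zero, pow_add, pow_one]
      ring
  · rintro ⟨v, w⟩ h _ he
    simp only [mem_sigma, mem_sdiff, mem_insert, not_or] at h
    simp only [Sigma.mk.injEq, heq_eq_eq] at he
    exact h.2.2.1 he.1
  · rintro ⟨v, w⟩ h
    simp only [mem_sigma, mem_sdiff, mem_insert, not_or] at h ⊢
    exact ⟨⟨h.2.1, h.2.2.2⟩, h.1.1, fun e => h.2.2.1 e.symm, h.1.2⟩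
  · rintro ⟨v, w⟩ _
    rfl

theorem bd_add (V : Finset ℕ) (z y : Finset ℕ → k) : bd V (z + y) = bd V z + bd V y := by
  funext G
  simp only [bd, Pi.add_apply, mul_add, Finset.sum_add_distrib]

theorem bd_sub (V : Finset ℕ) (z y : Finset ℕ → k) : bd V (z - y) = bd V z - bd V y := by
  funext G
  simp only [bd, Pi.sub_apply, mul_sub, Finset.sum_sub_distrib]

/-- the boundary does not depend on the ambient vertex set -/
theorem bd_congr {X : Finset (Finset ℕ)} {s : ℕ} {z : Finset ℕ → k} (hz : IsCh X s z)
    {V : Finset ℕ} (hV : X.sup id ⊆ V) : bd (X.sup id) z = bd V z := by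
  funext G
  simp only [bd]
  refine Finset.sum_subset (sdiff_subset_sdiff hV (Subset.refl _)) ?_
  intro v _ hv
  have : z (insert v G) = 0 := by
    by_contra hne
    have h1 := (hz _ hne).1
    have h2 : v ∈ X.sup id := by
      rw [Finset.mem_sup]
      exact ⟨_, h1, by simp⟩
    by_cases hvG : v ∈ G
    · simp_all
    · exact hv (mem_sdiff.2 ⟨h2, hvG⟩)
  rw [this, mul_zero]

/-- the vanishing of homology relative to a vertex set -/
def HV (k : Type*) [Field k] (V : Finset ℕ) (X : Finset (Finset ℕ)) (s : ℕ) : Prop :=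
  ∀ z : Finset ℕ → k, IsCh X s z → bd V z = 0 → ∃ y : Finset ℕ → k, IsCh X (s + 1) y ∧ bd V y = z

theorem hVanish_of_HV {V : Finset ℕ} {X : Finset (Finset ℕ)} {s : ℕ} (hV : X.sup id ⊆ V)
    (h : HV k V X s) : HVanish k X s := by
  intro z hz hb
  rw [bd_congr hz hV] at hb
  obtain ⟨y, hy, hb2⟩ := h z hz hb
  exact ⟨y, hy, by rw [bd_congr hy hV, hb2]⟩

/-- closed under subsets -/
def Down (X : Finset (Finset ℕ)) : Prop := ∀ F ∈ X, ∀ G ⊆ F, G ∈ X

theorem isCh_bd {X : Finset (Finset ℕ)} (hX : Down X) {s : ℕ} {y : Finset ℕ → k}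
    (hy : IsCh X (s + 1) y) (V : Finset ℕ) : IsCh X s (bd V y) := by
  intro G hG
  simp only [bd] at hG
  obtain ⟨v, hv, hne⟩ := Finset.exists_ne_zero_of_sum_ne_zero hG
  have h1 := hy _ (right_ne_zero_of_mul hne)
  rw [mem_sdiff] at hv
  rw [card_insert_of_notMem hv.2] at h1
  exact ⟨hX _ h1.1 _ (subset_insert _ _), by omega⟩

/-- adding a facet `F` whose new faces are those containing `R`, `R ≠ F` -/
theorem HV_step {V : Finset ℕ} {X : Finset (Finset ℕ)} (hX : Down X) {F R : Finset ℕ}
    (hF : F ⊆ V) (hRF : R ⊆ F) (hR : ∀ G ⊆ F, G ∈ X ↔ ¬ R ⊆ G) (hne : R ≠ F) {s : ℕ}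
    (h : HV k V X s) : HV k V (X ∪ F.powerset) s := by
  obtain ⟨v, hvF, hvR⟩ : ∃ v ∈ F, v ∉ R := by
    by_contra hc
    push Not at hc
    exact hne (Subset.antisymm hRF hc)
  have hX' : Down (X ∪ F.powerset) := by
    intro A hA B hB
    rw [mem_union, mem_powerset] at hA ⊢
    rcases hA with hA | hA
    · exact Or.inl (hX A hA B hB)
    · exact Or.inr (hB.trans hA)
  -- membership in the new complex and not in the old one
  have hnew : ∀ G, G ∈ X ∪ F.powerset → G ∉ X → G ⊆ F ∧ R ⊆ G := by
    intro G hG hGX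
    rw [mem_union, mem_powerset] at hG
    have hGF := hG.resolve_left hGX
    exact ⟨hGF, by_contra fun hc => hGX ((hR G hGF).2 hc)⟩
  intro z hz hb
  -- the chain on the new faces containing `v`
  let y0 : Finset ℕ → k := fun H =>
    if H ⊆ F ∧ R ⊆ H ∧ v ∈ H ∧ H.card = s + 1 then
      (-1) ^ ((H.erase v).filter fun u => u < v).card * z (H.erase v) else 0
  have hy0 : IsCh (X ∪ F.powerset) (s + 1) y0 := by
    intro G hG
    by_cases hc : G ⊆ F ∧ R ⊆ G ∧ v ∈ G ∧ G.card = s + 1
    · exact ⟨mem_union_right _ (mem_powerset.2 hc.1), hc.2.2.2⟩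
    · simp only [y0, if_neg hc, ne_eq, not_true_eq_false] at hG
  have hval : ∀ G, G ⊆ F → R ⊆ G → v ∉ G → G.card = s → bd V y0 G = z G := by
    intro G hGF hRG hvG hGs
    simp only [bd]
    rw [Finset.sum_eq_single v]
    · have hc : insert v G ⊆ F ∧ R ⊆ insert v G ∧ v ∈ insert v G ∧ (insert v G).card = s + 1 :=
        ⟨insert_subset hvF hGF, hRG.trans (subset_insert _ _), mem_insert_self _ _, by
          rw [card_insert_of_notMem hvG, hGs]⟩
      simp only [y0, if_pos hc, erase_insert hvG]
      rw [← mul_assoc, ← mul_pow]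
      simp
    · intro w hw hwv
      rw [mem_sdiff] at hw
      have hc : ¬ (insert w G ⊆ F ∧ R ⊆ insert w G ∧ v ∈ insert w G ∧
          (insert w G).card = s + 1) := by
        rintro ⟨-, -, h3, -⟩
        rw [mem_insert] at h3
        rcases h3 with h3 | h3
        · exact hwv h3.symm
        · exact hvG h3
      simp only [y0, if_neg hc, mul_zero]
    · intro hc
      exact absurd (mem_sdiff.2 ⟨hF hvF, hvG⟩) hc
  set z1 : Finset ℕ → k := z - bd V y0 with hz1
  have hz1c : IsCh (X ∪ F.powerset) s z1 := by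
    intro G hG
    by_cases h1 : z G = 0
    · have h2 : bd V y0 G ≠ 0 := by
        intro h3
        apply hG
        simp [hz1, h1, h3]
      exact isCh_bd hX' hy0 V G h2
    · exact hz G h1
  have hz1b : bd V z1 = 0 := by rw [hz1, bd_sub, hb, bd_bd, sub_zero]
  -- `z1` vanishes on the new faces without `v`
  have hA : ∀ G, G ∉ X → v ∉ G → z1 G = 0 := by
    intro G hGX hvG
    by_contra hne1
    obtain ⟨h1, h2⟩ := hz1c G hne1
    obtain ⟨h3, h4⟩ := hnew G h1 hGX
    apply hne1
    rw [hz1, Pi.sub_apply, hval G h3 h4 hvG h2, sub_self]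
  -- and on the new faces with `v`
  have hB : ∀ G, G ∉ X → z1 G = 0 := by
    intro G hGX
    by_cases hvG : v ∈ G
    · by_contra hne1
      obtain ⟨h1, h2⟩ := hz1c G hne1
      obtain ⟨h3, h4⟩ := hnew G h1 hGX
      have hRe : R ⊆ G.erase v := fun x hx => mem_erase.2 ⟨fun e => hvR (e ▸ hx), h4 hx⟩
      have hGe : G.erase v ∉ X := fun hc =>
        (hR _ ((erase_subset _ _).trans h3)).1 hc hRe
      have h5 := congrFun hz1b (G.erase v)
      simp only [bd, Pi.zero_apply] at h5
      rw [Finset.sum_eq_single v] at h5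
      · rw [insert_erase hvG] at h5
        rcases mul_eq_zero.1 h5 with h6 | h6
        · exact absurd h6 (pow_ne_zero _ (neg_ne_zero.2 one_ne_zero))
        · exact hne1 h6
      · intro w hw hwv
        rw [mem_sdiff] at hw
        rw [hA (insert w (G.erase v))]
        · rw [mul_zero]
        · intro hc
          exact hGe (hX _ hc _ (subset_insert _ _))
        · rw [mem_insert, not_or]
          exact ⟨fun e => hwv e.symm, fun hc => (mem_erase.1 hc).1 rfl⟩
      · intro hc
        exact absurd (mem_sdiff.2 ⟨hF hvF, fun hc2 => (mem_erase.1 hc2).1 rfl⟩) hc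
    · exact hA G hGX hvG
  have hz1X : IsCh X s z1 := by
    intro G hG
    exact ⟨by_contra fun hc => hG (hB G hc), (hz1c G hG).2⟩
  obtain ⟨y1, hy1, hb1⟩ := h z1 hz1X hz1b
  refine ⟨y0 + y1, ?_, ?_⟩
  · intro G hG
    by_cases h1 : y0 G = 0
    · have h2 : y1 G ≠ 0 := by
        intro h3
        apply hG
        simp [h1, h3]
      exact ⟨mem_union_left _ (hy1 G h2).1, (hy1 G h2).2⟩
    · exact hy0 G h1
  · rw [bd_add, hb1, hz1]
    simp

/-! ### Shellings -/

/-- complexes built by adding facets with `d` elements one at a time; the faces of `F` which are new are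
those containing `R`. -/
inductive Sh (d : ℕ) : Finset (Finset ℕ) → Prop
  | nil : Sh d ∅
  | cons (X : Finset (Finset ℕ)) (F R : Finset ℕ) (h : Sh d X) (hF : F.card = d) (hRF : R ⊆ F)
      (hR : ∀ G ⊆ F, G ∈ X ↔ ¬ R ⊆ G) : Sh d (X ∪ F.powerset)

theorem Sh.down {d : ℕ} {X : Finset (Finset ℕ)} (h : Sh d X) : Down X := by
  induction h with
  | nil => intro F hF; simp at hF
  | cons X F R _ _ _ _ ih =>
    intro A hA B hB
    rw [mem_union, mem_powerset] at hA ⊢
    rcases hA with hA | hA
    · exact Or.inl (ih A hA B hB)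
    · exact Or.inr (hB.trans hA)

theorem Sh.pure {d : ℕ} {X : Finset (Finset ℕ)} (h : Sh d X) :
    ∀ G ∈ X, G.card ≤ d ∧ ∃ F ∈ X, G ⊆ F ∧ F.card = d := by
  induction h with
  | nil => intro F hF; simp at hF
  | cons X F R _ hF _ _ ih =>
    intro A hA
    rw [mem_union, mem_powerset] at hA
    rcases hA with hA | hA
    · obtain ⟨h1, H, h2, h3, h4⟩ := ih A hA
      exact ⟨h1, H, mem_union_left _ h2, h3, h4⟩
    · exact ⟨hF ▸ card_le_card hA, F, mem_union_right _ (mem_powerset_self F), hA, hF⟩

theorem Sh.HV {d : ℕ} {X : Finset (Finset ℕ)} (h : Sh d X) {V : Finset ℕ} (hV : X.sup id ⊆ V)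
    {s : ℕ} (hs : s < d) : HV k V X s := by
  induction h with
  | nil =>
    intro z hz _
    refine ⟨0, fun G hG => absurd rfl hG, ?_⟩
    funext G
    have : z G = 0 := by
      by_contra hne
      have := (hz G hne).1
      simp at this
    rw [this]
    simp [bd]
  | cons X F R hX hF hRF hR ih =>
    have hV1 : X.sup id ⊆ V := by
      refine Subset.trans ?_ hV
      exact Finset.sup_mono subset_union_left
    have hV2 : F ⊆ V := by
      refine Subset.trans ?_ hV
      have : F ∈ X ∪ F.powerset := mem_union_right _ (mem_powerset_self F)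
      exact Finset.le_sup (f := id) this
    have h1 := ih hV1
    by_cases hne : R = F
    · -- only the facet is new
      subst hne
      intro z hz hb
      have hz' : IsCh X s z := by
        intro G hG
        obtain ⟨h2, h3⟩ := hz G hG
        refine ⟨?_, h3⟩
        rw [mem_union, mem_powerset] at h2
        rcases h2 with h2 | h2
        · exact h2
        · refine (hR G h2).2 fun hc => ?_
          have := card_le_card hc
          omega
      obtain ⟨y, hy, hyb⟩ := h1 z hz' hb
      exact ⟨y, fun G hG => ⟨mem_union_left _ (hy G hG).1, (hy G hG).2⟩, hyb⟩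
    · exact HV_step hX.down hV2 hRF hR hne h1

theorem Sh.link {d : ℕ} {X : Finset (Finset ℕ)} (h : Sh d X) (σ : Finset ℕ) :
    Sh (d - σ.card) (link X σ) := by
  induction h with
  | nil => simpa [CMS.link] using Sh.nil
  | cons X F R hX hF hRF hR ih =>
    by_cases hσ : σ ⊆ F
    · have e : CMS.link (X ∪ F.powerset) σ = CMS.link X σ ∪ (F \ σ).powerset := by
        ext G
        simp only [CMS.link, mem_filter, mem_union, mem_powerset]
        constructor
        · rintro ⟨h1, h2, h3⟩
          rcases h3 with h3 | h3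
          · exact Or.inl ⟨hX.down _ h3 _ subset_union_left, h2, h3⟩
          · right
            intro x hx
            rw [mem_sdiff]
            exact ⟨h3 (mem_union_left _ hx), Finset.disjoint_left.1 h2 hx⟩
        · rintro (⟨h1, h2, h3⟩ | h1)
          · exact ⟨Or.inl h1, h2, Or.inl h3⟩
          · refine ⟨Or.inr (h1.trans sdiff_subset), ?_, Or.inr ?_⟩
            · rw [Finset.disjoint_left]
              intro x hx
              exact (mem_sdiff.1 (h1 hx)).2
            · exact union_subset (h1.trans sdiff_subset) hσ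
      rw [e]
      refine Sh.cons _ (F \ σ) (R \ σ) ih ?_ (sdiff_subset_sdiff hRF (Subset.refl _)) ?_
      · rw [card_sdiff_of_subset hσ, hF]
      · intro G hG
        have hGF : G ∪ σ ⊆ F := union_subset (hG.trans sdiff_subset) hσ
        have hdis : Disjoint G σ := by
          rw [Finset.disjoint_left]
          intro x hx
          exact (mem_sdiff.1 (hG hx)).2
        constructor
        · intro h1 h2
          simp only [CMS.link, mem_filter] at h1
          refine (hR _ hGF).1 h1.2.2 ?_
          intro x hx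
          by_cases hxσ : x ∈ σ
          · exact mem_union_right _ hxσ
          · exact mem_union_left _ (h2 (mem_sdiff.2 ⟨hx, hxσ⟩))
        · intro h1
          simp only [CMS.link, mem_filter]
          have h2 : G ∪ σ ∈ X := by
            refine (hR _ hGF).2 fun hc => h1 ?_
            intro x hx
            rw [mem_sdiff] at hx
            exact (mem_union.1 (hc hx.1)).resolve_right hx.2
          exact ⟨hX.down _ h2 _ subset_union_left, hdis, h2⟩
    · have e : CMS.link (X ∪ F.powerset) σ = CMS.link X σ := by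
        ext G
        simp only [CMS.link, mem_filter, mem_union, mem_powerset]
        constructor
        · rintro ⟨h1, h2, h3⟩
          rcases h3 with h3 | h3
          · exact ⟨hX.down _ h3 _ subset_union_left, h2, h3⟩
          · exact absurd (subset_union_right.trans h3) hσ
        · rintro ⟨h1, h2, h3⟩
          exact ⟨Or.inl h1, h2, Or.inl h3⟩
      rw [e]
      exact ih

theorem Sh.size {d : ℕ} {X : Finset (Finset ℕ)} (h : Sh d X) (hne : X.Nonempty) : size X = d := by
  obtain ⟨G, hG⟩ := hne
  obtain ⟨-, F, hF, -, hFd⟩ := h.pure G hG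
  apply le_antisymm
  · exact Finset.sup_le fun H hH => (h.pure H hH).1
  · rw [← hFd]
    exact Finset.le_sup (f := card) hF

theorem Sh.CM {d : ℕ} {X : Finset (Finset ℕ)} (h : Sh d X) : CM k X := by
  intro σ hσ s hs
  have hl := h.link σ
  have hne : (CMS.link X σ).Nonempty := by
    refine ⟨∅, ?_⟩
    simp only [CMS.link, mem_filter]
    exact ⟨h.down _ hσ _ (empty_subset _), by simp, by simpa using hσ⟩
  rw [hl.size hne] at hs
  exact hVanish_of_HV (Subset.refl _) (hl.HV (Subset.refl _) hs)

end Pool.Agent.R140.CMS
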